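import Pool.Agent.H705.RO.Stm3

/-! # VAR: a sum of minima -/

set_option autoImplicit false

namespace Pool.Agent.H924.RO

open Finset Filter Topology MeasureTheory
open Pool.Agent.H705.RO

theorem half_le_log_two : (1 : ℝ) / 2 ≤ Real.log 2 := by
  have := Real.log_two_gt_d9
  linarith

theorem log_sq_le {s t : ℝ} (hs : 2 ≤ s) (ht : s ≤ t) :
    Real.log t ^ 2 ≤ 81 * Real.log s ^ 2 * Real.sqrt (t / s) := by
  have hs0 : 0 < s := by linarith
  have ht0 : 0 < t := by linarith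
  have hq : 1 ≤ t / s := (one_le_div hs0).2 ht
  have h1 : 1 ≤ Real.sqrt (t / s) := Real.one_le_sqrt.2 hq
  obtain ⟨w, hw⟩ : ∃ w, w = Real.sqrt (Real.sqrt (t / s)) := ⟨_, rfl⟩
  have hw1 : 1 ≤ w := by rw [hw]; exact Real.one_le_sqrt.2 h1
  have hw0 : 0 < w := by linarith
  have hw2 : w ^ 2 = Real.sqrt (t / s) := by rw [hw]; exact Real.sq_sqrt (by positivity)
  have hw4 : w ^ 4 = t / s := by
    have e : w ^ 4 = (w ^ 2) ^ 2 := by ring
    rw [e, hw2, Real.sq_sqrt (by positivity)]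
  have hls : 1 / 2 ≤ Real.log s := half_le_log_two.trans (Real.log_le_log (by norm_num) hs)
  have hlt : Real.log t = Real.log s + 4 * Real.log w := by
    have e : t = s * w ^ 4 := by rw [hw4]; field_simp
    have e2 : Real.log t = Real.log (s * w ^ 4) := congrArg Real.log e
    rw [e2, Real.log_mul (by positivity) (by positivity), Real.log_pow]
    push_cast
    ring
  have hlw : Real.log w ≤ w := (Real.log_le_sub_one_of_pos hw0).trans (by linarith)
  have h9 : Real.log t ≤ 9 * Real.log s * w := by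
    rw [hlt]
    have a1 : Real.log s * 1 ≤ Real.log s * w := mul_le_mul_of_nonneg_left hw1 (by linarith)
    have a2 : 1 / 2 * w ≤ Real.log s * w := mul_le_mul_of_nonneg_right hls hw0.le
    linarith
  have h0 : 0 ≤ Real.log t := Real.log_nonneg (by linarith)
  calc Real.log t ^ 2 ≤ (9 * Real.log s * w) ^ 2 := pow_le_pow_left₀ h0 h9 2
    _ = 81 * Real.log s ^ 2 * w ^ 2 := by ring
    _ = 81 * Real.log s ^ 2 * Real.sqrt (t / s) := by rw [hw2]

theorem tele (n : ℕ) : 1 / (((n : ℝ) + 2) * Real.sqrt ((n : ℝ) + 2)) ≤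
    2 * (1 / Real.sqrt ((n : ℝ) + 1) - 1 / Real.sqrt ((n : ℝ) + 2)) := by
  have hn : (0 : ℝ) ≤ n := Nat.cast_nonneg n
  obtain ⟨a, ha⟩ : ∃ a, a = Real.sqrt ((n : ℝ) + 1) := ⟨_, rfl⟩
  obtain ⟨b, hb⟩ : ∃ b, b = Real.sqrt ((n : ℝ) + 2) := ⟨_, rfl⟩
  have ha0 : 0 < a := by rw [ha]; exact Real.sqrt_pos.2 (by linarith)
  have hb0 : 0 < b := by rw [hb]; exact Real.sqrt_pos.2 (by linarith)
  have ha2 : a ^ 2 = (n : ℝ) + 1 := by rw [ha]; exact Real.sq_sqrt (by linarith)
  have hb2 : b ^ 2 = (n : ℝ) + 2 := by rw [hb]; exact Real.sq_sqrt (by linarith)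
  have hab : a ≤ b := by rw [ha, hb]; exact Real.sqrt_le_sqrt (by linarith)
  rw [← ha, ← hb, ← hb2]
  have e0 : (b - a) * (a + b) = 1 := by
    have : (b - a) * (a + b) = b ^ 2 - a ^ 2 := by ring
    rw [this, ha2, hb2]
    ring
  have e : 2 * (1 / a - 1 / b) = 2 / (a * b * (a + b)) := by
    rw [eq_div_iff (by positivity)]
    have e1 : 2 * (1 / a - 1 / b) * (a * b * (a + b)) = 2 * ((b - a) * (a + b)) := by
      field_simp
    rw [e1, e0, mul_one]
  rw [e, div_le_div_iff₀ (by positivity) (by positivity)]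
  have h1 : a * b * (a + b) ≤ b * b * (b + b) := by
    apply mul_le_mul
    · exact mul_le_mul_of_nonneg_right hab hb0.le
    · linarith
    · positivity
    · positivity
  calc 1 * (a * b * (a + b)) ≤ b * b * (b + b) := by rw [one_mul]; exact h1
    _ = 2 * (b ^ 2 * b) := by ring

theorem sum_le (N M : ℕ) (h : N ≤ M) :
    ∑ n ∈ Finset.Ico N M, 1 / (((n : ℝ) + 2) * Real.sqrt ((n : ℝ) + 2)) ≤
      2 * (1 / Real.sqrt ((N : ℝ) + 1) - 1 / Real.sqrt ((M : ℝ) + 1)) := by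
  induction M, h using Nat.le_induction with
  | base => simp
  | succ M hM ih =>
    rw [Finset.sum_Ico_succ_top hM]
    have h1 := tele M
    have e : ((M + 1 : ℕ) : ℝ) + 1 = (M : ℝ) + 2 := by push_cast; ring
    rw [e]
    linarith

theorem sum_le' (N M : ℕ) (h : N ≤ M) :
    ∑ n ∈ Finset.Ico N M, 1 / (((n : ℝ) + 2) * Real.sqrt ((n : ℝ) + 2)) ≤
      2 / Real.sqrt ((N : ℝ) + 1) := by
  have h1 := sum_le N M h
  have h2 : 0 ≤ 1 / Real.sqrt ((M : ℝ) + 1) := by positivity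
  have e : 2 / Real.sqrt ((N : ℝ) + 1) = 2 * (1 / Real.sqrt ((N : ℝ) + 1)) := by ring
  rw [e]
  linarith

theorem T_VAR : P_VAR := by
  intro c hc
  refine ⟨5 + 31104 / c ^ 2, by positivity, ?_⟩
  intro γ hγ1 hγ x y hx hxy hyx M
  obtain ⟨H, hH⟩ : ∃ H, H = y - x := ⟨_, rfl⟩
  have hH0 : 0 < H := by rw [hH]; linarith
  have hHx : H ≤ 2 * x := by rw [hH]; linarith
  have hHh : 1 / 2 ≤ H := by rw [hH]; linarith
  have hx0 : 0 < x := by linarith
  have hy0 : 0 < y := by linarith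
  have hy3 : y ≤ 3 * x := by linarith
  have hl : 1 / 2 ≤ Real.log x := half_le_log_two.trans (Real.log_le_log (by norm_num) hx)
  have hl0 : 0 < Real.log x := by linarith
  have hlx : Real.log x ≤ x := (Real.log_le_sub_one_of_pos hx0).trans (by linarith)
  have hsx : 0 < Real.sqrt x := Real.sqrt_pos.2 hx0
  have hsy : 0 < Real.sqrt y := Real.sqrt_pos.2 hy0
  obtain ⟨Y, hY⟩ : ∃ Y, Y = x / H * Real.log x := ⟨_, rfl⟩
  have hY0 : 0 < Y := by rw [hY]; positivity
  obtain ⟨N, hN⟩ : ∃ N, N = ⌈Y⌉₊ := ⟨_, rfl⟩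
  have hN1 : Y ≤ N := by rw [hN]; exact Nat.le_ceil Y
  have hN2 : (N : ℝ) ≤ Y + 1 := by rw [hN]; exact (Nat.ceil_lt_add_one hY0.le).le
  have hN0 : (0 : ℝ) ≤ N := Nat.cast_nonneg N
  rw [← hH]
  -- the first terms
  have hnn : ∀ n, 0 ≤ min (H / Real.sqrt x) (2 * Real.sqrt y / γ n) := fun n =>
    le_min (by positivity) (by have := hγ1 n; positivity)
  have hA : ∀ n, (min (H / Real.sqrt x) (2 * Real.sqrt y / γ n)) ^ 2 ≤ H ^ 2 / x := by
    intro n
    calc (min (H / Real.sqrt x) (2 * Real.sqrt y / γ n)) ^ 2 ≤ (H / Real.sqrt x) ^ 2 :=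
          pow_le_pow_left₀ (hnn n) (min_le_left _ _) 2
      _ = H ^ 2 / x := by rw [div_pow, Real.sq_sqrt hx0.le]
  have hfirst : ∑ n ∈ range N, (min (H / Real.sqrt x) (2 * Real.sqrt y / γ n)) ^ 2 ≤
      5 * H * Real.log x := by
    calc ∑ n ∈ range N, (min (H / Real.sqrt x) (2 * Real.sqrt y / γ n)) ^ 2
        ≤ ∑ _n ∈ range N, H ^ 2 / x := Finset.sum_le_sum fun n _ => hA n
      _ = N * (H ^ 2 / x) := by rw [Finset.sum_const, Finset.card_range, nsmul_eq_mul]
      _ ≤ (Y + 1) * (H ^ 2 / x) := mul_le_mul_of_nonneg_right hN2 (by positivity)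
      _ = H * Real.log x + H * (H / x) := by rw [hY]; field_simp
      _ ≤ H * Real.log x + H * (4 * Real.log x) := by
          have h1 : H / x ≤ 2 := by rw [div_le_iff₀ hx0]; exact hHx
          have h2 : H * (H / x) ≤ H * (4 * Real.log x) :=
            mul_le_mul_of_nonneg_left (by linarith) hH0.le
          linarith
      _ = 5 * H * Real.log x := by ring
  -- the tail
  obtain ⟨D, hD⟩ : ∃ D, D = 324 * y * Real.log ((N : ℝ) + 2) ^ 2 /
    (c ^ 2 * Real.sqrt ((N : ℝ) + 2)) := ⟨_, rfl⟩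
  have hsN : 0 < Real.sqrt ((N : ℝ) + 2) := Real.sqrt_pos.2 (by linarith)
  have hsN1 : 0 < Real.sqrt ((N : ℝ) + 1) := Real.sqrt_pos.2 (by linarith)
  have hD0 : 0 ≤ D := by rw [hD]; positivity
  have hterm : ∀ n : ℕ, N ≤ n → (min (H / Real.sqrt x) (2 * Real.sqrt y / γ n)) ^ 2 ≤
      D * (1 / (((n : ℝ) + 2) * Real.sqrt ((n : ℝ) + 2))) := by
    intro n hn
    have hn' : (N : ℝ) ≤ n := by exact_mod_cast hn
    have hm0 : (0 : ℝ) < (n : ℝ) + 2 := by linarith
    have hsn : 0 < Real.sqrt ((n : ℝ) + 2) := Real.sqrt_pos.2 hm0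
    have hlog : 0 < Real.log ((n : ℝ) + 2) := Real.log_pos (by linarith)
    have hg0 : 0 < c * ((n : ℝ) + 2) / Real.log ((n : ℝ) + 2) := by positivity
    have h1 : min (H / Real.sqrt x) (2 * Real.sqrt y / γ n) ≤
        2 * Real.sqrt y / (c * ((n : ℝ) + 2) / Real.log ((n : ℝ) + 2)) :=
      (min_le_right _ _).trans (div_le_div_of_nonneg_left (by positivity) hg0 (hγ n))
    have h2 := pow_le_pow_left₀ (hnn n) h1 2
    have h3 := log_sq_le (s := (N : ℝ) + 2) (t := (n : ℝ) + 2) (by linarith) (by linarith)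
    calc (min (H / Real.sqrt x) (2 * Real.sqrt y / γ n)) ^ 2
        ≤ (2 * Real.sqrt y / (c * ((n : ℝ) + 2) / Real.log ((n : ℝ) + 2))) ^ 2 := h2
      _ = 4 * y / (c ^ 2 * ((n : ℝ) + 2) ^ 2) * Real.log ((n : ℝ) + 2) ^ 2 := by
          have e1 : (2 * Real.sqrt y / (c * ((n : ℝ) + 2) / Real.log ((n : ℝ) + 2))) ^ 2 =
              4 * (Real.sqrt y) ^ 2 / (c ^ 2 * ((n : ℝ) + 2) ^ 2) *
                Real.log ((n : ℝ) + 2) ^ 2 := by
            field_simp
            ring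
          rw [e1, Real.sq_sqrt hy0.le]
      _ ≤ 4 * y / (c ^ 2 * ((n : ℝ) + 2) ^ 2) *
          (81 * Real.log ((N : ℝ) + 2) ^ 2 * Real.sqrt (((n : ℝ) + 2) / ((N : ℝ) + 2))) :=
          mul_le_mul_of_nonneg_left h3 (by positivity)
      _ = D * (1 / (((n : ℝ) + 2) * Real.sqrt ((n : ℝ) + 2))) := by
          rw [Real.sqrt_div hm0.le, hD]
          have e2 : ((n : ℝ) + 2) ^ 2 = ((n : ℝ) + 2) *
              (Real.sqrt ((n : ℝ) + 2) * Real.sqrt ((n : ℝ) + 2)) := by
            rw [Real.mul_self_sqrt hm0.le]; ring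
          rw [e2]
          field_simp
          ring
  have htail : ∀ M', N ≤ M' →
      ∑ n ∈ Finset.Ico N M', (min (H / Real.sqrt x) (2 * Real.sqrt y / γ n)) ^ 2 ≤
        31104 / c ^ 2 * H * Real.log x := by
    intro M' hM'
    have hN2x : (N : ℝ) + 2 ≤ x ^ 4 := by
      have h1 : Y ≤ 2 * x * x := by
        rw [hY]
        have h2 : x / H ≤ 2 * x := by
          rw [div_le_iff₀ hH0]
          have := mul_le_mul_of_nonneg_left hHh hx0.le
          linarith
        exact mul_le_mul h2 hlx hl0.le (by positivity)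
      have h3 : (4 : ℝ) ≤ x ^ 2 := by nlinarith
      have h4 : x ^ 4 = x ^ 2 * x ^ 2 := by ring
      rw [h4]
      nlinarith
    have hlogN : Real.log ((N : ℝ) + 2) ≤ 4 * Real.log x := by
      calc Real.log ((N : ℝ) + 2) ≤ Real.log (x ^ 4) := Real.log_le_log (by linarith) hN2x
        _ = 4 * Real.log x := by rw [Real.log_pow]; push_cast; ring
    have hlogN0 : 0 ≤ Real.log ((N : ℝ) + 2) := Real.log_nonneg (by linarith)
    have hlogN2 : Real.log ((N : ℝ) + 2) ^ 2 ≤ 16 * Real.log x ^ 2 := by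
      calc Real.log ((N : ℝ) + 2) ^ 2 ≤ (4 * Real.log x) ^ 2 := pow_le_pow_left₀ hlogN0 hlogN 2
        _ = 16 * Real.log x ^ 2 := by ring
    have hNY : 1 / ((N : ℝ) + 1) ≤ H / (x * Real.log x) := by
      have h1 : H / (x * Real.log x) = 1 / Y := by rw [hY]; field_simp
      rw [h1]
      exact one_div_le_one_div_of_le hY0 (by linarith)
    have hss : 1 / (Real.sqrt ((N : ℝ) + 2) * Real.sqrt ((N : ℝ) + 1)) ≤ 1 / ((N : ℝ) + 1) := by
      apply one_div_le_one_div_of_le (by linarith)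
      calc (N : ℝ) + 1 = Real.sqrt ((N : ℝ) + 1) * Real.sqrt ((N : ℝ) + 1) :=
            (Real.mul_self_sqrt (by linarith)).symm
        _ ≤ Real.sqrt ((N : ℝ) + 2) * Real.sqrt ((N : ℝ) + 1) :=
            mul_le_mul_of_nonneg_right (Real.sqrt_le_sqrt (by linarith)) hsN1.le
    calc ∑ n ∈ Finset.Ico N M', (min (H / Real.sqrt x) (2 * Real.sqrt y / γ n)) ^ 2
        ≤ ∑ n ∈ Finset.Ico N M', D * (1 / (((n : ℝ) + 2) * Real.sqrt ((n : ℝ) + 2))) :=
          Finset.sum_le_sum fun n hn => hterm n (Finset.mem_Ico.1 hn).1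
      _ = D * ∑ n ∈ Finset.Ico N M', 1 / (((n : ℝ) + 2) * Real.sqrt ((n : ℝ) + 2)) := by
          rw [Finset.mul_sum]
      _ ≤ D * (2 / Real.sqrt ((N : ℝ) + 1)) :=
          mul_le_mul_of_nonneg_left (sum_le' N M' hM') hD0
      _ = 648 / c ^ 2 * (y * (Real.log ((N : ℝ) + 2) ^ 2 *
          (1 / (Real.sqrt ((N : ℝ) + 2) * Real.sqrt ((N : ℝ) + 1))))) := by
          rw [hD]
          field_simp
          ring
      _ ≤ 648 / c ^ 2 * ((3 * x) * ((16 * Real.log x ^ 2) * (H / (x * Real.log x)))) := by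
          apply mul_le_mul_of_nonneg_left _ (by positivity)
          apply mul_le_mul hy3 _ (by positivity) (by positivity)
          exact mul_le_mul hlogN2 (hss.trans hNY) (by positivity) (by positivity)
      _ = 31104 / c ^ 2 * H * Real.log x := by
          field_simp
          ring
  -- the conclusion
  have hmax : N ≤ max M N := le_max_right _ _
  calc ∑ n ∈ range M, (min (H / Real.sqrt x) (2 * Real.sqrt y / γ n)) ^ 2
      ≤ ∑ n ∈ range (max M N), (min (H / Real.sqrt x) (2 * Real.sqrt y / γ n)) ^ 2 :=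
        Finset.sum_le_sum_of_subset_of_nonneg
          (Finset.range_subset_range.2 (le_max_left _ _)) fun n _ _ => by positivity
    _ = ∑ n ∈ range N, (min (H / Real.sqrt x) (2 * Real.sqrt y / γ n)) ^ 2 +
        ∑ n ∈ Finset.Ico N (max M N), (min (H / Real.sqrt x) (2 * Real.sqrt y / γ n)) ^ 2 :=
        (Finset.sum_range_add_sum_Ico _ hmax).symm
    _ ≤ 5 * H * Real.log x + 31104 / c ^ 2 * H * Real.log x :=
        add_le_add hfirst (htail _ hmax)
    _ = (5 + 31104 / c ^ 2) * H * Real.log x := by ring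

end Pool.Agent.H924.RO
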